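import Pool.Agent.H77.PM.Targets

/-!
# MP_5607ba_lc: row DEN

From the permutations which agree with `g₀` on the first `m` points to all injective sequences with
the same first `m` points.
-/

set_option autoImplicit false

open Set Filter Topology

namespace Pool.Agent.H74.PM

open Pool.Agent.H77.PM

/-- A permutation with prescribed values on the first `K` numbers. -/
lemma perm_ext (K : ℕ) (a : ℕ → ℕ) (ha : ∀ i < K, ∀ j < K, a i = a j → i = j) :
    ∃ g : Equiv.Perm ℕ, ∀ i < K, g i = a i := by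
  have hM := Equiv.Perm.isMultiplyPretransitive ℕ K
  let x : Fin K ↪ ℕ := Fin.valEmbedding
  let y : Fin K ↪ ℕ := ⟨fun i => a i, fun i j h => Fin.ext (ha i i.2 j j.2 h)⟩
  obtain ⟨g, hg⟩ := hM.exists_smul_eq x y
  refine ⟨g, fun i hi => ?_⟩
  have := congrArg (fun e : Fin K ↪ ℕ => e ⟨i, hi⟩) hg
  exact this

/-- A common small radius. -/
lemma small_radius {M : Type} [MetricSpace M] (q : ℕ → M) (hq : Function.Injective q) (K N : ℕ) :
    ∃ δ : ℝ, 0 < δ ∧ δ < 1 / ((N : ℝ) + 1) ∧
      ∀ i < K, ∀ j < K, i ≠ j → 2 * δ < dist (q i) (q j) := by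
  have h1 : ∀ᶠ δ : ℝ in 𝓝[>] 0, δ < 1 / ((N : ℝ) + 1) := by
    have hpos : (0 : ℝ) < 1 / ((N : ℝ) + 1) := by positivity
    filter_upwards [Ioo_mem_nhdsGT hpos] with δ hδ using hδ.2
  have h2 : ∀ᶠ δ : ℝ in 𝓝[>] 0, ∀ i ∈ Finset.range K, ∀ j ∈ Finset.range K, i ≠ j →
      2 * δ < dist (q i) (q j) := by
    refine (Filter.eventually_all_finset _).2 fun i _ => ?_
    refine (Filter.eventually_all_finset _).2 fun j _ => ?_
    by_cases hij : i = j
    · exact Eventually.of_forall fun δ h => absurd hij h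
    · have hpos : (0 : ℝ) < dist (q i) (q j) / 2 :=
        half_pos (dist_pos.2 fun h => hij (hq h))
      filter_upwards [Ioo_mem_nhdsGT hpos] with δ hδ _
      have := hδ.2
      linarith
  have h3 : ∀ᶠ δ : ℝ in 𝓝[>] 0, 0 < δ := self_mem_nhdsWithin
  obtain ⟨δ, ⟨ha, hb⟩, hc⟩ := ((h1.and h2).and h3).exists
  exact ⟨δ, hc, ha, fun i hi j hj => hb i (Finset.mem_range.2 hi) j (Finset.mem_range.2 hj)⟩

theorem pf_DEN : T_DEN := by
  intro ι ar Z _ S p C m g₀ hp hC h q hq hqp
  have key : ∀ N : ℕ, ∃ g : Equiv.Perm ℕ, (∀ i < m, g i = g₀ i) ∧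
      ∀ i < N, dist (p (g i)) (q i) < 1 / ((N : ℝ) + 1) := by
    intro N
    obtain ⟨δ, hδ, hδN, hsep⟩ := small_radius q hq (max N m) N
    have hch : ∀ i : ℕ, ∃ n : ℕ, (i < m → n = g₀ i) ∧ dist (p n) (q i) < δ := by
      intro i
      by_cases hi : i < m
      · refine ⟨g₀ i, fun _ => rfl, ?_⟩
        rw [hqp i hi, dist_self]
        exact hδ
      · obtain ⟨n, hn⟩ := hp.2.exists_dist_lt (q i) hδ
        exact ⟨n, fun h' => absurd h' hi, by rw [dist_comm]; exact hn⟩
    choose a ha1 ha2 using hch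
    obtain ⟨g, hg⟩ := perm_ext (max N m) a (by
      intro i hi j hj hij
      by_contra hne
      have h1 := hsep i hi j hj hne
      have h2 := ha2 i
      have h3 := ha2 j
      rw [hij] at h2
      have h4 : dist (q i) (q j) ≤ dist (p (a j)) (q i) + dist (p (a j)) (q j) :=
        dist_triangle_left _ _ _
      linarith)
    refine ⟨g, fun i hi => ?_, fun i hi => ?_⟩
    · rw [hg i (lt_of_lt_of_le hi (le_max_right _ _)), ha1 i hi]
    · rw [hg i (lt_of_lt_of_le hi (le_max_left _ _))]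
      exact (ha2 i).trans hδN
  choose g hg1 hg2 using key
  have hpt : ∀ i : ℕ, Tendsto (fun N => p (g N i)) atTop (𝓝 (q i)) := by
    intro i
    rw [tendsto_iff_dist_tendsto_zero]
    refine squeeze_zero' (Eventually.of_forall fun N => dist_nonneg) ?_
      (tendsto_one_div_add_atTop_nhds_zero_nat (𝕜 := ℝ))
    filter_upwards [eventually_gt_atTop i] with N hN
    exact (hg2 N i hN).le
  have hlim : Tendsto (fun N => code S (p ∘ g N)) atTop (𝓝 (code S q)) := by
    refine Filter.Tendsto.prodMk_nhds ?_ ?_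
    · refine tendsto_pi_nhds.2 fun i => tendsto_pi_nhds.2 fun j => ?_
      exact (hpt i).dist (hpt j)
    · refine tendsto_pi_nhds.2 fun i => tendsto_pi_nhds.2 fun a => ?_
      exact ((S.cont i).tendsto (q ∘ a)).comp (tendsto_pi_nhds.2 fun j => hpt (a j))
  exact hC.mem_of_tendsto hlim (Eventually.of_forall fun N => h (g N) (hg1 N))

end Pool.Agent.H74.PM
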